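import Pool.Agent.Y105.RZ.Fin
import Pool.Agent.Y667.RZ.Stm2
import Pool.Agent.W22.RK.Loc

/-!
# Project RZ (helper667), job GOODS: local solubility at the primes of good reduction
-/

set_option autoImplicit false

namespace Pool.Agent.Y105.RZ

open Pool.Agent.Y667.RZ Pool.Agent.W307.SE

section

variable {p : ℕ} [hp : Fact p.Prime]

/-- the quadratic character of an integer modulo `p` -/
noncomputable def ch (p : ℕ) [Fact p.Prime] (m : ℤ) : ℤ := quadraticChar (ZMod p) (m : ZMod p)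

lemma ch_mul (m n : ℤ) : ch p (m * n) = ch p m * ch p n := by
  unfold ch
  rw [Int.cast_mul, map_mul]

lemma ne_of_ch {m : ℤ} (h : ch p m = 1) : (m : ℚ_[p]) ≠ 0 := by
  intro h0
  have h1 : m = 0 := by exact_mod_cast h0
  rw [h1] at h
  unfold ch at h
  simp at h

lemma sq_int (hp2 : p ≠ 2) {m : ℤ} (h : ch p m = 1) : IsSquare (m : ℚ_[p]) := by
  have hm0 : (m : ZMod p) ≠ 0 := by
    intro h0
    unfold ch at h
    rw [h0] at h
    simp at h
  have h1 : IsSquare (m : ZMod p) := (quadraticChar_one_iff_isSquare hm0).1 h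
  obtain ⟨k, hk⟩ := h1
  have hk0 : k ≠ 0 := by
    rintro rfl
    exact hm0 (by rw [hk, mul_zero])
  obtain ⟨K, rfl⟩ := ZMod.intCast_surjective k
  have hKd : ¬ (p : ℤ) ∣ K := fun h => hk0 ((ZMod.intCast_zmod_eq_zero_iff_dvd K p).2 h)
  have hd : (p : ℤ) ∣ m - K * K := by
    rw [← ZMod.intCast_zmod_eq_zero_iff_dvd]
    push_cast
    rw [hk, sub_self]
  have n1 : ‖((m - K * K : ℤ) : ℚ_[p])‖ < 1 := (Padic.norm_intCast_lt_one_iff (p := p)).2 hd
  have n2 : ‖((K : ℤ) : ℚ_[p])‖ = 1 := by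
    have h5 : ¬ ‖((K : ℤ) : ℚ_[p])‖ < 1 := by
      rw [Padic.norm_intCast_lt_one_iff]
      exact hKd
    have h6 : ‖((K : ℤ) : ℚ_[p])‖ ≤ 1 := Padic.norm_int_le_one K
    exact le_antisymm h6 (not_lt.1 h5)
  have hKne : (K : ℚ_[p]) ≠ 0 := by
    intro h0
    rw [h0, norm_zero] at n2
    norm_num at n2
  have h3 := Pool.Agent.W22.RK.isSquare_one_add hp2 (((m - K * K : ℤ) : ℚ_[p]) / (K * K))
    (by rw [norm_div, norm_mul, n2, mul_one, div_one]; exact n1)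
  have e : (m : ℚ_[p]) = (K * K) * (1 + ((m - K * K : ℤ) : ℚ_[p]) / (K * K)) := by
    push_cast
    field_simp
    ring
  rw [e]
  exact (IsSquare.mul_self (K : ℚ_[p])).mul h3

lemma mk {A B d1 d2 : ℤ} (x : ℚ_[p]) (h : IsSquare (x * (x - A) * (x - B)))
    (hne : x * (x - A) * (x - B) ≠ 0) (h1 : IsSquare (x * d1)) (h2 : IsSquare ((x - A) * d2)) :
    Loc ℚ_[p] A B d1 d2 := by
  obtain ⟨y, hy⟩ := h
  refine ⟨x, y, ?_, ?_, h1, h2⟩
  · rintro rfl
    exact hne (by rw [hy, mul_zero])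
  · rw [hy, pow_two]

lemma ch_one_add (c : ℤ) : ch p (1 + (p : ℤ) ^ 2 * c) = 1 := by
  unfold ch
  push_cast
  simp

lemma ch_cases {m : ℤ} (h : ¬ (p : ℤ) ∣ m) : ch p m = 1 ∨ ch p m = -1 := by
  unfold ch
  apply quadraticChar_dichotomy
  intro h0
  exact h ((ZMod.intCast_zmod_eq_zero_iff_dvd m p).1 h0)

end

/-- **GOODS.** -/
theorem GOODS : St_GOODS := by
  intro p hp A B d1 d2 h hd1 hd2
  have hA : ¬ (p : ℤ) ∣ A := fun h' => h (Dvd.dvd.mul_right (Dvd.dvd.mul_right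
    (Dvd.dvd.mul_left h' 2) B) _)
  have hB : ¬ (p : ℤ) ∣ B := fun h' => h (Dvd.dvd.mul_right (Dvd.dvd.mul_left h' _) _)
  have hC : ¬ (p : ℤ) ∣ (A - B) := fun h' => h (Dvd.dvd.mul_left h' _)
  have h2 : ¬ (p : ℤ) ∣ 2 := fun h' => h (Dvd.dvd.mul_right (Dvd.dvd.mul_right
    (Dvd.dvd.mul_right h' _) _) _)
  have hp2 : p ≠ 2 := by
    rintro rfl
    exact h2 (by norm_num)
  have hF : ringChar (ZMod p) ≠ 2 := by rwa [ZMod.ringChar_zmod_n]
  have cast0 : ∀ m : ℤ, ¬ (p : ℤ) ∣ m → (m : ZMod p) ≠ 0 := fun m hm h0 =>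
    hm ((ZMod.intCast_zmod_eq_zero_iff_dvd m p).1 h0)
  have hA0 := cast0 A hA
  have hB0 := cast0 B hB
  have hAB : (A : ZMod p) ≠ (B : ZMod p) := by
    intro h0
    apply cast0 _ hC
    push_cast
    rw [h0, sub_self]
  have qne : ∀ m : ℤ, ¬ (p : ℤ) ∣ m → (m : ℚ_[p]) ≠ 0 := by
    intro m hm h0
    have : m = 0 := by exact_mod_cast h0
    exact hm (by rw [this]; exact dvd_zero _)
  have hAq := qne A hA
  have hBq := qne B hB
  have hCq : (A : ℚ_[p]) - B ≠ 0 := by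
    have := qne _ hC
    push_cast at this
    exact this
  have hCq' : (B : ℚ_[p]) - A ≠ 0 := by
    rw [← neg_sub]
    exact neg_ne_zero.2 hCq
  have hpq : (p : ℚ_[p]) ≠ 0 := by exact_mod_cast hp.out.ne_zero
  have c1 := ch_cases hd1
  have c2 := ch_cases hd2
  have s1 : ch p d1 * ch p d1 = 1 := by rcases c1 with h | h <;> rw [h] <;> norm_num
  have s2 : ch p d2 * ch p d2 = 1 := by rcases c2 with h | h <;> rw [h] <;> norm_num
  have one : ∀ c : ℤ, IsSquare ((1 : ℚ_[p]) + (p : ℚ_[p]) ^ 2 * c) ∧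
      (1 : ℚ_[p]) + (p : ℚ_[p]) ^ 2 * c ≠ 0 := by
    intro c
    have h1 := sq_int hp2 (ch_one_add (p := p) c)
    have h2 := ne_of_ch (ch_one_add (p := p) c)
    push_cast at h1 h2
    exact ⟨h1, h2⟩
  have psq : IsSquare ((p : ℚ_[p]) ^ 2) := ⟨p, pow_two _⟩
  rcases classes hF hA0 hB0 hAB c1 c2 with ⟨u, hu1, hu2, hu3⟩ | ⟨e1, e2⟩ | ⟨e1, e2⟩ | ⟨e1, e2⟩ |
    ⟨e1, e2⟩
  · -- a point with good reduction different from the 2-torsion points
    obtain ⟨U, rfl⟩ := ZMod.intCast_surjective u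
    have f1 : ch p U = ch p d1 := hu1
    have f2 : ch p (U - A) = ch p d2 := by
      unfold ch
      unfold ch at hu2
      push_cast
      exact hu2
    have f3 : ch p (U - B) = ch p d1 * ch p d2 := by
      have : ch p (U - B) = quadraticChar (ZMod p) ((U : ZMod p) - B) := by
        unfold ch
        push_cast
        rfl
      rw [this]
      exact hu3
    have g1 : ch p (U * d1) = 1 := by rw [ch_mul, f1, s1]
    have g2 : ch p ((U - A) * d2) = 1 := by rw [ch_mul, f2, s2]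
    have g3 : ch p (U * (U - A) * (U - B)) = 1 := by
      rw [ch_mul, ch_mul, f1, f2, f3]
      linear_combination (ch p d2 * ch p d2) * s1 + s2
    have k1 := sq_int hp2 g1
    have k2 := sq_int hp2 g2
    have k3 := sq_int hp2 g3
    have k4 := ne_of_ch g3
    push_cast at k1 k2 k3 k4
    exact mk (U : ℚ_[p]) k3 k4 k1 k2
  · -- the point at infinity
    have k1 : IsSquare ((d1 : ℤ) : ℚ_[p]) := sq_int hp2 e1
    have k2 : IsSquare ((d2 : ℤ) : ℚ_[p]) := sq_int hp2 e2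
    obtain ⟨oA, oA'⟩ := one (-A)
    obtain ⟨oB, oB'⟩ := one (-B)
    have ps : IsSquare (1 / (p : ℚ_[p]) ^ 2) := ⟨1 / p, by field_simp⟩
    have eA : 1 / (p : ℚ_[p]) ^ 2 - A = 1 / (p : ℚ_[p]) ^ 2 * (1 + (p : ℚ_[p]) ^ 2 * ((-A : ℤ))) := by
      push_cast
      field_simp
      ring
    have eB : 1 / (p : ℚ_[p]) ^ 2 - B = 1 / (p : ℚ_[p]) ^ 2 * (1 + (p : ℚ_[p]) ^ 2 * ((-B : ℤ))) := by
      push_cast
      field_simp
      ring
    have pn : 1 / (p : ℚ_[p]) ^ 2 ≠ 0 := one_div_ne_zero (pow_ne_zero 2 hpq)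
    refine mk (1 / (p : ℚ_[p]) ^ 2) ?_ ?_ (ps.mul k1) ?_
    · rw [eA, eB]
      exact (ps.mul (ps.mul oA)).mul (ps.mul oB)
    · rw [eA, eB]
      exact mul_ne_zero (mul_ne_zero pn (mul_ne_zero pn oA')) (mul_ne_zero pn oB')
    · rw [eA]
      exact (ps.mul oA).mul k2
  · -- the point (0, 0)
    have f1 : ch p (A * B * d1) = 1 := by
      rw [ch_mul]
      have : ch p (A * B) = ch p d1 := by
        rw [e1]; unfold ch; push_cast; rfl
      rw [this, s1]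
    have f2 : ch p (-A * d2) = 1 := by
      rw [ch_mul]
      have : ch p (-A) = ch p d2 := by
        rw [e2]; unfold ch; push_cast; rfl
      rw [this, s2]
    have k1 := sq_int hp2 f1
    have k2 := sq_int hp2 f2
    push_cast at k1 k2
    obtain ⟨oA, oA'⟩ := one (-A)
    obtain ⟨oB, oB'⟩ := one (-B)
    push_cast at oA oA' oB oB'
    have AB : IsSquare (((A : ℚ_[p]) * B) * (A * B)) := ⟨_, rfl⟩
    refine mk ((p : ℚ_[p]) ^ 2 * (A * B)) ?_ ?_ ?_ ?_
    · have e : (p : ℚ_[p]) ^ 2 * (A * B) * ((p : ℚ_[p]) ^ 2 * (A * B) - A) *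
          ((p : ℚ_[p]) ^ 2 * (A * B) - B) = (p : ℚ_[p]) ^ 2 * (((A : ℚ_[p]) * B) * (A * B)) *
          ((1 + (p : ℚ_[p]) ^ 2 * (-B)) * (1 + (p : ℚ_[p]) ^ 2 * (-A))) := by ring
      rw [e]
      exact (psq.mul AB).mul (oB.mul oA)
    · have e : (p : ℚ_[p]) ^ 2 * (A * B) * ((p : ℚ_[p]) ^ 2 * (A * B) - A) *
          ((p : ℚ_[p]) ^ 2 * (A * B) - B) = (p : ℚ_[p]) ^ 2 * (((A : ℚ_[p]) * B) * (A * B)) *
          ((1 + (p : ℚ_[p]) ^ 2 * (-B)) * (1 + (p : ℚ_[p]) ^ 2 * (-A))) := by ring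
      rw [e]
      exact mul_ne_zero (mul_ne_zero (pow_ne_zero 2 hpq) (mul_ne_zero (mul_ne_zero hAq hBq)
        (mul_ne_zero hAq hBq))) (mul_ne_zero oB' oA')
    · rw [mul_assoc]
      exact psq.mul k1
    · have e : ((p : ℚ_[p]) ^ 2 * (A * B) - A) * d2 = (-A * d2) * (1 + (p : ℚ_[p]) ^ 2 * (-B)) := by
        ring
      rw [e]
      exact k2.mul oB
  · -- the point (A, 0)
    have f1 : ch p (A * d1) = 1 := by
      rw [ch_mul]
      have : ch p A = ch p d1 := by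
        rw [e1]; rfl
      rw [this, s1]
    have f2 : ch p (A * (A - B) * d2) = 1 := by
      rw [ch_mul]
      have : ch p (A * (A - B)) = ch p d2 := by
        rw [e2]; unfold ch; push_cast; rfl
      rw [this, s2]
    have k1 := sq_int hp2 f1
    have k2 := sq_int hp2 f2
    push_cast at k1 k2
    obtain ⟨oA, oA'⟩ := one A
    obtain ⟨oB, oB'⟩ := one (A - B)
    push_cast at oA oA' oB oB'
    have AB : IsSquare (((A : ℚ_[p]) * (A - B)) * (A * (A - B))) := ⟨_, rfl⟩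
    have e : (A + (p : ℚ_[p]) ^ 2 * (A * (A - B))) * (A + (p : ℚ_[p]) ^ 2 * (A * (A - B)) - A) *
        (A + (p : ℚ_[p]) ^ 2 * (A * (A - B)) - B) =
        (p : ℚ_[p]) ^ 2 * (((A : ℚ_[p]) * (A - B)) * (A * (A - B))) *
        ((1 + (p : ℚ_[p]) ^ 2 * (A - B)) * (1 + (p : ℚ_[p]) ^ 2 * A)) := by ring
    refine mk (A + (p : ℚ_[p]) ^ 2 * (A * (A - B))) ?_ ?_ ?_ ?_
    · rw [e]
      exact (psq.mul AB).mul (oB.mul oA)
    · rw [e]
      exact mul_ne_zero (mul_ne_zero (pow_ne_zero 2 hpq) (mul_ne_zero (mul_ne_zero hAq hCq)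
        (mul_ne_zero hAq hCq))) (mul_ne_zero oB' oA')
    · have e : (A + (p : ℚ_[p]) ^ 2 * (A * (A - B))) * d1 =
          (A * d1) * (1 + (p : ℚ_[p]) ^ 2 * (A - B)) := by ring
      rw [e]
      exact k1.mul oB
    · have e : (A + (p : ℚ_[p]) ^ 2 * (A * (A - B)) - A) * d2 =
          (p : ℚ_[p]) ^ 2 * (A * (A - B) * d2) := by ring
      rw [e]
      exact psq.mul k2
  · -- the point (B, 0)
    have f1 : ch p (B * d1) = 1 := by
      rw [ch_mul]
      have : ch p B = ch p d1 := by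
        rw [e1]; rfl
      rw [this, s1]
    have f2 : ch p ((B - A) * d2) = 1 := by
      rw [ch_mul]
      have : ch p (B - A) = ch p d2 := by
        rw [e2]; unfold ch; push_cast; rfl
      rw [this, s2]
    have k1 := sq_int hp2 f1
    have k2 := sq_int hp2 f2
    push_cast at k1 k2
    obtain ⟨oA, oA'⟩ := one B
    obtain ⟨oB, oB'⟩ := one (B - A)
    push_cast at oA oA' oB oB'
    have AB : IsSquare (((B : ℚ_[p]) * (B - A)) * (B * (B - A))) := ⟨_, rfl⟩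
    have e : (B + (p : ℚ_[p]) ^ 2 * (B * (B - A))) * (B + (p : ℚ_[p]) ^ 2 * (B * (B - A)) - A) *
        (B + (p : ℚ_[p]) ^ 2 * (B * (B - A)) - B) =
        (p : ℚ_[p]) ^ 2 * (((B : ℚ_[p]) * (B - A)) * (B * (B - A))) *
        ((1 + (p : ℚ_[p]) ^ 2 * (B - A)) * (1 + (p : ℚ_[p]) ^ 2 * B)) := by ring
    refine mk (B + (p : ℚ_[p]) ^ 2 * (B * (B - A))) ?_ ?_ ?_ ?_
    · rw [e]
      exact (psq.mul AB).mul (oB.mul oA)
    · rw [e]
      exact mul_ne_zero (mul_ne_zero (pow_ne_zero 2 hpq) (mul_ne_zero (mul_ne_zero hBq hCq')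
        (mul_ne_zero hBq hCq'))) (mul_ne_zero oB' oA')
    · have e : (B + (p : ℚ_[p]) ^ 2 * (B * (B - A))) * d1 =
          (B * d1) * (1 + (p : ℚ_[p]) ^ 2 * (B - A)) := by ring
      rw [e]
      exact k1.mul oB
    · have e : (B + (p : ℚ_[p]) ^ 2 * (B * (B - A)) - A) * d2 =
          ((B - A) * d2) * (1 + (p : ℚ_[p]) ^ 2 * B) := by ring
      rw [e]
      exact k2.mul oA

end Pool.Agent.Y105.RZ
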