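import Mathlib

/-!
# Project RZ (helper667), GOODS: the finite field part

For an elliptic curve `y² = x (x - A) (x - B)` over a finite field of odd characteristic every
class `(e1, e2)` of signs is the class of a point: an elementary count without the group law.
-/

set_option autoImplicit false

namespace Pool.Agent.Y105.RZ

open Finset

variable {F : Type*} [Field F] [Fintype F] [DecidableEq F]

/-- the sum of `quadraticChar F(u) quadraticChar F(u - t)` is `-1` -/
lemma jac (hF : ringChar F ≠ 2) {t : F} (ht : t ≠ 0) : ∑ u : F, quadraticChar F u * quadraticChar F (u - t) = -1 := by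
  have h1 : ∑ u : F, quadraticChar F u * quadraticChar F (u - t) = ∑ u ∈ univ.erase (0 : F), quadraticChar F (1 - t / u) := by
    rw [← Finset.sum_erase (a := (0 : F)) (s := univ) (f := fun u => quadraticChar F u * quadraticChar F (u - t)) (by simp)]
    refine sum_congr rfl fun u hu => ?_
    have hu0 : u ≠ 0 := ne_of_mem_erase hu
    have e : u - t = u * (1 - t / u) := by field_simp
    rw [e, map_mul, ← mul_assoc, ← map_mul, ← pow_two, quadraticChar_sq_one' hu0, one_mul]
  have h2 : ∑ u ∈ univ.erase (0 : F), quadraticChar F (1 - t / u) = ∑ v ∈ univ.erase (1 : F), quadraticChar F v := by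
    refine Finset.sum_bij' (fun u _ => 1 - t / u) (fun v _ => t / (1 - v)) ?_ ?_ ?_ ?_ ?_
    · intro u hu
      have hu0 : u ≠ 0 := ne_of_mem_erase hu
      refine mem_erase.2 ⟨fun h => ?_, mem_univ _⟩
      have : t / u = 0 := by linear_combination -h
      rcases div_eq_zero_iff.1 this with h | h
      · exact ht h
      · exact hu0 h
    · intro v hv
      have hv1 : v ≠ 1 := ne_of_mem_erase hv
      have : (1 : F) - v ≠ 0 := sub_ne_zero.2 (Ne.symm hv1)
      exact mem_erase.2 ⟨div_ne_zero ht this, mem_univ _⟩
    · intro u hu
      have hu0 : u ≠ 0 := ne_of_mem_erase hu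
      rw [sub_sub_cancel]
      field_simp
    · intro v hv
      have hv1 : v ≠ 1 := ne_of_mem_erase hv
      have : (1 : F) - v ≠ 0 := sub_ne_zero.2 (Ne.symm hv1)
      field_simp
      ring
    · intro u hu
      rfl
  have h3 : ∑ v ∈ univ.erase (1 : F), quadraticChar F v + quadraticChar F 1 = ∑ v : F, quadraticChar F v :=
    Finset.sum_erase_add _ _ (mem_univ _)
  rw [quadraticChar_sum_zero hF, map_one] at h3
  rw [h1, h2]
  linarith

lemma jac2 (hF : ringChar F ≠ 2) {a b : F} (hab : a ≠ b) : ∑ u : F, quadraticChar F (u - a) * quadraticChar F (u - b) = -1 := by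
  rw [← Equiv.sum_comp (Equiv.addRight a) (fun u => quadraticChar F (u - a) * quadraticChar F (u - b))]
  simp only [Equiv.coe_addRight, add_sub_cancel_right]
  rw [← jac hF (t := b - a) (sub_ne_zero.2 (Ne.symm hab))]
  refine sum_congr rfl fun u _ => ?_
  congr 2
  ring

lemma sum_shift (hF : ringChar F ≠ 2) (a : F) : ∑ u : F, quadraticChar F (u - a) = 0 := by
  rw [← Equiv.sum_comp (Equiv.addRight a) (fun u => quadraticChar F (u - a))]
  simp only [Equiv.coe_addRight, add_sub_cancel_right]
  exact quadraticChar_sum_zero hF

lemma chi_cases {u : F} (hu : u ≠ 0) : quadraticChar F u = 1 ∨ quadraticChar F u = -1 := quadraticChar_dichotomy hu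

/-- **The classes.** -/
theorem classes (hF : ringChar F ≠ 2) {A B : F} (hA : A ≠ 0) (hB : B ≠ 0) (hAB : A ≠ B)
    {e1 e2 : ℤ} (h1 : e1 = 1 ∨ e1 = -1) (h2 : e2 = 1 ∨ e2 = -1) :
    (∃ u : F, quadraticChar F u = e1 ∧ quadraticChar F (u - A) = e2 ∧ quadraticChar F (u - B) = e1 * e2) ∨ (e1 = 1 ∧ e2 = 1) ∨
    (e1 = quadraticChar F (A * B) ∧ e2 = quadraticChar F (-A)) ∨ (e1 = quadraticChar F A ∧ e2 = quadraticChar F (A * (A - B))) ∨
    (e1 = quadraticChar F B ∧ e2 = quadraticChar F (B - A)) := by
  by_contra hcon
  push Not at hcon
  obtain ⟨hno, hO, h0, hAA, hBB⟩ := hcon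
  have s1 : e1 * e1 = 1 := by rcases h1 with rfl | rfl <;> norm_num
  have s2 : e2 * e2 = 1 := by rcases h2 with rfl | rfl <;> norm_num
  set f : F → ℤ := fun u => (1 + e1 * quadraticChar F u) * (1 + e2 * quadraticChar F (u - A)) * (1 + e1 * e2 * quadraticChar F (u - B))
    with hf
  have expand : ∀ u : F, f u = 1 + e1 * quadraticChar F u + e2 * quadraticChar F (u - A) + e1 * e2 * quadraticChar F (u - B) +
      e1 * e2 * (quadraticChar F u * quadraticChar F (u - A)) + e2 * (quadraticChar F u * quadraticChar F (u - B)) + e1 * (quadraticChar F (u - A) * quadraticChar F (u - B)) +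
      quadraticChar F u * quadraticChar F (u - A) * quadraticChar F (u - B) := by
    intro u
    simp only [hf]
    linear_combination (e2 * (quadraticChar F u * quadraticChar F (u - B)) + e2 * e2 * (quadraticChar F u * quadraticChar F (u - A) * quadraticChar F (u - B))) * s1 +
      (e1 * (quadraticChar F (u - A) * quadraticChar F (u - B)) + quadraticChar F u * quadraticChar F (u - A) * quadraticChar F (u - B)) * s2
  -- the total sum
  have htot : ∑ u : F, f u = (Fintype.card F : ℤ) - e1 * e2 - e2 - e1 +
      ∑ u : F, quadraticChar F u * quadraticChar F (u - A) * quadraticChar F (u - B) := by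
    simp only [expand, sum_add_distrib, ← mul_sum]
    rw [quadraticChar_sum_zero hF, sum_shift hF A, sum_shift hF B, jac hF hA, jac hF hB,
      jac2 hF hAB]
    simp
    ring
  -- the number of points
  have hpts : (3 : ℤ) ≤ (Fintype.card F : ℤ) + ∑ u : F, quadraticChar F u * quadraticChar F (u - A) * quadraticChar F (u - B) := by
    have e : (Fintype.card F : ℤ) + ∑ u : F, quadraticChar F u * quadraticChar F (u - A) * quadraticChar F (u - B) =
        ∑ u : F, (1 + quadraticChar F u * quadraticChar F (u - A) * quadraticChar F (u - B)) := by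
      rw [sum_add_distrib]
      simp
    rw [e]
    have hnn : ∀ u : F, (0 : ℤ) ≤ 1 + quadraticChar F u * quadraticChar F (u - A) * quadraticChar F (u - B) := by
      intro u
      have h : quadraticChar F u * quadraticChar F (u - A) * quadraticChar F (u - B) = quadraticChar F (u * (u - A) * (u - B)) := by
        rw [map_mul, map_mul]
      rw [h]
      by_cases h0 : u * (u - A) * (u - B) = 0
      · rw [h0]; simp
      · rcases chi_cases h0 with h | h <;> rw [h] <;> norm_num
    calc (3 : ℤ) = ∑ u ∈ ({0, A, B} : Finset F), (1 + quadraticChar F u * quadraticChar F (u - A) * quadraticChar F (u - B)) := by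
          rw [sum_insert (by simp [Ne.symm hA, Ne.symm hB]), sum_insert (by simp [hAB]),
            sum_singleton]
          simp
      _ ≤ _ := sum_le_sum_of_subset_of_nonneg (subset_univ _) fun u _ _ => hnn u
  -- each term vanishes
  have hz : ∀ u : F, f u = 0 := by
    intro u
    by_cases hu0 : u = 0
    · subst hu0
      simp only [hf, quadraticChar_zero, mul_zero, add_zero, one_mul, zero_sub]
      rcases chi_cases (neg_ne_zero.2 hA) with ha | ha <;>
        rcases chi_cases (neg_ne_zero.2 hB) with hb | hb <;>
        rcases h1 with rfl | rfl <;> rcases h2 with rfl | rfl <;>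
        simp only [ha, hb] <;> norm_num
      all_goals
        exfalso
        have hc : quadraticChar F (A * B) = quadraticChar F (-A) * quadraticChar F (-B) := by rw [← map_mul]; congr 1; ring
        rw [ha, hb] at hc
        revert h0
        rw [hc, ha]
        norm_num
    by_cases huA : u = A
    · subst huA
      simp only [hf, sub_self, quadraticChar_zero, mul_zero, add_zero, mul_one]
      rcases chi_cases hA with ha | ha <;>
        rcases chi_cases (sub_ne_zero.2 hAB) with hb | hb <;>
        rcases h1 with rfl | rfl <;> rcases h2 with rfl | rfl <;>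
        simp only [ha, hb] <;> norm_num
      all_goals
        exfalso
        revert hAA
        rw [map_mul, ha, hb]
        norm_num
    by_cases huB : u = B
    · subst huB
      simp only [hf, sub_self, quadraticChar_zero, mul_zero, add_zero, mul_one]
      rcases chi_cases hB with ha | ha <;>
        rcases chi_cases (sub_ne_zero.2 (Ne.symm hAB)) with hb | hb <;>
        rcases h1 with rfl | rfl <;> rcases h2 with rfl | rfl <;>
        simp only [ha, hb] <;> norm_num
      all_goals
        exfalso
        revert hBB
        rw [ha, hb]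
        norm_num
    · have k := hno u
      simp only [hf]
      rcases chi_cases hu0 with ha | ha <;>
        rcases chi_cases (sub_ne_zero.2 huA) with hb | hb <;>
        rcases chi_cases (sub_ne_zero.2 huB) with hc | hc <;>
        rcases h1 with rfl | rfl <;> rcases h2 with rfl | rfl <;>
        simp only [ha, hb, hc] at k ⊢ <;>
        first
        | (norm_num; done)
        | (exfalso; revert k; norm_num; done)
  have h3 : ∑ u : F, f u = 0 := sum_eq_zero fun u _ => hz u
  rw [h3] at htot
  have h4 : e1 * e2 + e2 + e1 ≤ -1 := by
    rcases h1 with rfl | rfl <;> rcases h2 with rfl | rfl <;>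
      first
      | (norm_num; done)
      | (exfalso; revert hO; norm_num; done)
  linarith

end Pool.Agent.Y105.RZ
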